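import Mathlib

set_option autoImplicit false

open Finset

namespace Pool.Agent.Results.MP_4bc86c_co.NoNMinusTwo

/-- `c` is a proper edge-colouring of the complete graph on `Fin n` with the `q` colours of
`Fin q`: two distinct edges sharing an end get different colours (the values of `c` on the
diagonal of `Sym2` play no role). -/
def IsProper {n q : ℕ} (c : Sym2 (Fin n) → Fin q) : Prop :=
  ∀ x y z : Fin n, x ≠ y → x ≠ z → y ≠ z → c s(x, y) ≠ c s(x, z)

/-- `c` is an optimal edge-colouring of the complete graph on `Fin n`: it is proper and its number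
of colours `q` is the least possible, that is, `q` is the chromatic index of the complete graph. -/
def IsOptimal {n q : ℕ} (c : Sym2 (Fin n) → Fin q) : Prop :=
  IsProper c ∧ ∀ (q' : ℕ) (c' : Sym2 (Fin n) → Fin q'), IsProper c' → q ≤ q'

/-- The complete graph on `Fin n` has a cycle of length `l` whose edges have pairwise distinct
colours. -/
def HasRainbowCycle {n q : ℕ} (c : Sym2 (Fin n) → Fin q) (l : ℕ) : Prop :=
  ∃ (u : Fin n) (p : (⊤ : SimpleGraph (Fin n)).Walk u u),
    p.IsCycle ∧ p.length = l ∧ (p.edges.map c).Nodup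

/-- The group used for the vertices. -/
abbrev G (k : ℕ) : Type := Fin k → ZMod 2

lemma add_self (k : ℕ) (a : G k) : a + a = 0 := by
  funext i
  have : ∀ x : ZMod 2, x + x = 0 := by decide
  exact this (a i)

lemma add_eq_zero (k : ℕ) (a b : G k) (h : a + b = 0) : a = b := by
  have h1 : a + b + b = b := by rw [h, zero_add]
  rwa [add_assoc, add_self, add_zero] at h1

lemma card_G (k : ℕ) : Fintype.card (G k) = 2 ^ k := by
  simp [G, ZMod.card]

/-- The sum of all elements of the group is zero when `k ≥ 2`. -/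
lemma sum_all (k : ℕ) (hk : 2 ≤ k) : ∑ x : G k, x = 0 := by
  funext i
  rw [Finset.sum_apply, Pi.zero_apply]
  -- pair `x` with `x` changed at another coordinate
  obtain ⟨j, hj⟩ : ∃ j : Fin k, j ≠ i := by
    have : Nontrivial (Fin k) := Fin.nontrivial_iff_two_le.mpr hk
    exact exists_ne i
  let w : G k := Pi.single j (1 : ZMod 2)
  have hwi : w i = 0 := Pi.single_eq_of_ne hj.symm _
  have hwj : w j = 1 := Pi.single_eq_same _ _
  apply Finset.sum_involution (fun (x : G k) _ => x + w)
  · intro x _
    have h1 : (x + w) i = x i := by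
      rw [Pi.add_apply, hwi, add_zero]
    rw [h1]
    have : ∀ y : ZMod 2, y + y = 0 := by decide
    exact this _
  · intro x _ _ h
    have h1 : (x + w) j = x j := by rw [h]
    rw [Pi.add_apply, hwj] at h1
    simp at h1
  · intro x _
    exact Finset.mem_univ _
  · intro x _
    rw [add_assoc, add_self, add_zero]

/-- The finite set of nonzero elements. -/
def NZ (k : ℕ) : Finset (G k) := Finset.univ.erase 0

lemma card_NZ (k : ℕ) : (NZ k).card = 2 ^ k - 1 := by
  rw [NZ, Finset.card_erase_of_mem (Finset.mem_univ _), Finset.card_univ, card_G]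

lemma sum_NZ (k : ℕ) (hk : 2 ≤ k) : ∑ x ∈ NZ k, x = 0 := by
  have h := Finset.add_sum_erase Finset.univ (fun x : G k => x) (Finset.mem_univ (0 : G k))
  simp only [zero_add] at h
  rw [NZ, h]
  exact sum_all k hk

/-- Telescoping along a walk. -/
lemma walk_sum {n k : ℕ} (φ : Fin n → G k) (c : Sym2 (Fin n) → G k)
    (hc : ∀ x y, c s(x, y) = φ x + φ y) {u v : Fin n} (p : (⊤ : SimpleGraph (Fin n)).Walk u v) :
    (p.edges.map c).sum = φ u + φ v := by
  induction p with
  | nil => simp [add_self]
  | cons h p ih =>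
    rw [SimpleGraph.Walk.edges_cons, List.map_cons, List.sum_cons, ih, hc]
    rename_i a b d
    have : φ a + φ b + (φ b + φ d) = φ a + (φ b + φ b) + φ d := by abel
    rw [this, add_self, add_zero]

/-- No set of `2 ^ k - 2` or `2 ^ k - 3` nonzero elements sums to zero. -/
lemma sum_ne (k : ℕ) (hk : 3 ≤ k) (C : Finset (G k)) (hC : C ⊆ NZ k)
    (hcard : C.card = 2 ^ k - 2 ∨ C.card = 2 ^ k - 3) : ∑ x ∈ C, x ≠ 0 := by
  intro h0
  have h8 : 2 ^ 3 ≤ 2 ^ k := Nat.pow_le_pow_right (by norm_num) hk
  have h1 : ∑ x ∈ NZ k \ C, x = 0 := by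
    have := Finset.sum_sdiff (f := fun x : G k => x) hC
    rw [h0, add_zero, sum_NZ k (by omega)] at this
    exact this
  have h2 : (NZ k \ C).card = 2 ^ k - 1 - C.card := by
    rw [Finset.card_sdiff_of_subset hC, card_NZ]
  have hmem : ∀ x ∈ NZ k \ C, x ≠ 0 := by
    intro x hx
    have := (Finset.mem_sdiff.mp hx).1
    exact (Finset.mem_erase.mp this).1
  rcases hcard with h | h
  · have h3 : (NZ k \ C).card = 1 := by omega
    obtain ⟨z, hz⟩ := Finset.card_eq_one.mp h3
    rw [hz, Finset.sum_singleton] at h1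
    exact hmem z (by rw [hz]; exact Finset.mem_singleton_self z) h1
  · have h3 : (NZ k \ C).card = 2 := by omega
    obtain ⟨z, w, hzw, hz⟩ := Finset.card_eq_two.mp h3
    rw [hz, Finset.sum_pair hzw] at h1
    exact hzw (add_eq_zero k z w h1)

/-- Every proper colouring of the complete graph on `n ≥ 2` vertices has at least `n - 1` colours,
and at least `n` colours if `n` is odd. -/
lemma lower {n q : ℕ} (hn : 2 ≤ n) (c : Sym2 (Fin n) → Fin q) (hc : IsProper c) :
    n - 1 ≤ q ∧ (n % 2 = 1 → n ≤ q) := by
  have h1 : n - 1 ≤ q := by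
    let v : Fin n := ⟨0, by omega⟩
    have hinj : Set.InjOn (fun y : Fin n => c s(v, y)) ((Finset.univ.erase v : Finset (Fin n)) : Set (Fin n)) := by
      intro y hy z hz hyz
      by_contra hne
      have hy' : y ≠ v := by simpa using hy
      have hz' : z ≠ v := by simpa using hz
      exact hc v y z hy'.symm hz'.symm hne hyz
    have := Finset.card_le_card_of_injOn (t := (Finset.univ : Finset (Fin q)))
      (fun y : Fin n => c s(v, y)) (fun _ _ => Finset.mem_coe.mpr (Finset.mem_univ _)) hinj
    rwa [Finset.card_erase_of_mem (Finset.mem_univ _), Finset.card_univ, Finset.card_univ,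
      Fintype.card_fin, Fintype.card_fin] at this
  refine ⟨h1, fun hodd => ?_⟩
  by_contra hlt
  have hq : q = n - 1 := by omega
  -- every vertex sees every colour
  have hall : ∀ (v : Fin n) (i : Fin q), ∃ y, y ≠ v ∧ c s(v, y) = i := by
    intro v i
    have hinj : Set.InjOn (fun y : Fin n => c s(v, y)) ((Finset.univ.erase v : Finset (Fin n)) : Set (Fin n)) := by
      intro y hy z hz hyz
      by_contra hne
      have hy' : y ≠ v := by simpa using hy
      have hz' : z ≠ v := by simpa using hz
      exact hc v y z hy'.symm hz'.symm hne hyz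
    have himg : (Finset.univ.erase v).image (fun y : Fin n => c s(v, y)) = Finset.univ := by
      apply Finset.eq_univ_of_card
      rw [Finset.card_image_of_injOn hinj, Finset.card_erase_of_mem (Finset.mem_univ _),
        Finset.card_univ, Fintype.card_fin, Fintype.card_fin, hq]
    have hi : i ∈ (Finset.univ.erase v).image (fun y : Fin n => c s(v, y)) := by
      rw [himg]; exact Finset.mem_univ _
    obtain ⟨y, hy, hyi⟩ := Finset.mem_image.mp hi
    exact ⟨y, (Finset.mem_erase.mp hy).1, hyi⟩
  let i : Fin q := ⟨0, by omega⟩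
  choose f hf hfc using fun v => hall v i
  have hff : ∀ v, f (f v) = v := by
    intro v
    by_contra hne
    refine hc (f v) v (f (f v)) (hf v) (hf (f v)).symm (fun h => hne h.symm) ?_
    rw [hfc (f v), Sym2.eq_swap, hfc v]
  -- a fixed point free involution on `Fin n`
  have heven : ∑ v : Fin n, (1 : ZMod 2) = 0 := by
    apply Finset.sum_involution (fun v _ => f v)
    · intro v _; decide
    · intro v _ _; exact hf v
    · intro v _; exact Finset.mem_univ _
    · intro v _; exact hff v
  rw [Finset.sum_const, Finset.card_univ, Fintype.card_fin, nsmul_eq_mul, mul_one] at heven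
  have := (ZMod.natCast_eq_zero_iff n 2).mp heven
  omega

/-- For every `k ≥ 3` and `n = 2 ^ k` or `n = 2 ^ k - 1` there is an optimal edge-colouring of the
complete graph on `n` vertices in which no cycle of length `n - 2` is rainbow. -/
theorem result : ∀ k : ℕ, 3 ≤ k → ∀ n : ℕ, (n = 2 ^ k ∨ n = 2 ^ k - 1) →
    ∃ (q : ℕ) (c : Sym2 (Fin n) → Fin q), IsOptimal c ∧ ¬ HasRainbowCycle c (n - 2) := by
  intro k hk n hn
  have h8 : 2 ^ 3 ≤ 2 ^ k := Nat.pow_le_pow_right (by norm_num) hk
  have hle : n ≤ Fintype.card (G k) := by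
    rw [card_G]; omega
  have heven : 2 ^ k % 2 = 0 := by
    obtain ⟨j, rfl⟩ : ∃ j, k = j + 1 := ⟨k - 1, by omega⟩
    omega
  -- an injection of the vertices into the group
  obtain ⟨φ⟩ : Nonempty (Fin n ↪ G k) := by
    apply Function.Embedding.nonempty_of_card_le
    rwa [Fintype.card_fin]
  -- an enumeration of the nonzero elements
  let e : (NZ k) ≃ Fin (2 ^ k - 1) := (NZ k).equivFinOfCardEq (card_NZ k)
  have hpos : 0 < 2 ^ k - 1 := by omega
  let g : G k → Fin (2 ^ k - 1) := fun a => if h : a ∈ NZ k then e ⟨a, h⟩ else ⟨0, hpos⟩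
  have hg : ∀ a ∈ NZ k, ∀ b ∈ NZ k, g a = g b → a = b := by
    intro a ha b hb hab
    simp only [g, dif_pos ha, dif_pos hb] at hab
    simpa using e.injective hab
  let s : Sym2 (Fin n) → G k := Sym2.lift ⟨fun x y => φ x + φ y, fun x y => add_comm _ _⟩
  have hs : ∀ x y, s s(x, y) = φ x + φ y := fun x y => rfl
  have hsNZ : ∀ x y, x ≠ y → s s(x, y) ∈ NZ k := by
    intro x y hxy
    rw [NZ, Finset.mem_erase]
    refine ⟨fun h => hxy (φ.injective (add_eq_zero k _ _ ?_)), Finset.mem_univ _⟩
    rw [← hs, h]
  refine ⟨2 ^ k - 1, fun z => g (s z), ⟨?_, ?_⟩, ?_⟩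
  · intro x y z hxy hxz hyz h
    have h1 := hg _ (hsNZ x y hxy) _ (hsNZ x z hxz) h
    rw [hs, hs] at h1
    exact hyz (φ.injective (add_left_cancel h1))
  · intro q' c' hc'
    obtain ⟨h1, h2⟩ := lower (by omega) c' hc'
    rcases hn with hn | hn
    · omega
    · have := h2 (by omega)
      omega
  · rintro ⟨u, p, hp, hlen, hnd⟩
    -- the colours of the cycle in the group
    have hmap : (p.edges.map (fun z => g (s z))) = ((p.edges.map s).map g) := by
      rw [List.map_map]; rfl
    rw [hmap] at hnd
    have hnd' : (p.edges.map s).Nodup := List.Nodup.of_map g hnd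
    have hsum := walk_sum (fun x => φ x) s hs p
    rw [add_self] at hsum
    have hC : (p.edges.map s).toFinset ⊆ NZ k := by
      intro a ha
      rw [List.mem_toFinset, List.mem_map] at ha
      obtain ⟨z, hz, rfl⟩ := ha
      induction z with
      | h x y =>
        have hadj := p.adj_of_mem_edges hz
        exact hsNZ x y hadj.ne
    have hcard : (p.edges.map s).toFinset.card = n - 2 := by
      rw [List.toFinset_card_of_nodup hnd', List.length_map, SimpleGraph.Walk.length_edges, hlen]
    apply sum_ne k hk _ hC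
    · rw [hcard]
      omega
    · rw [List.sum_toFinset (fun x => x) hnd', List.map_id']
      exact hsum

end Pool.Agent.Results.MP_4bc86c_co.NoNMinusTwo
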